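import Pool.Agent.LKT.Stmts
import Pool.Agent.Helper60_LKT.WLN

/-!
# Squad LKT, row FIN: the final theorem from the rows
-/

set_option autoImplicit false

open Topology

namespace Pool.Agent.LKT.H79

open Pool.Agent.LCK Pool.Agent.LKT

lemma X_eq : X = {x : Fin 8 → E3 | ∀ i : Fin 59, 0 < (fun (m : Fin 59) (y : Fin 8 → E3) => F m y) i x} := by
  ext x
  constructor
  · intro h i
    exact h i i.2
  · intro h i hi
    exact h ⟨i, hi⟩

lemma loc (hAFF : AffStmt) (hWLN : WlnStmt) (hWLF : WlfStmt) (hWLR : WlrStmt) (hWLS : WlsStmt)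
    (hWLX : WlxStmt) (hOPN : OpnStmt) (hABS : AbsStmt) (hGEN : GenStmt) :
    ∀ c ∈ Om, c ∈ closure X → closure X ∈ 𝓝 c := by
  intro c hc hcX
  have hwall : ∀ x ∈ Om, ∀ j : Fin 59,
      (∀ i : Fin 59, i ≠ j → 0 < (fun (m : Fin 59) (y : Fin 8 → E3) => F m y) i x) →
      (fun (m : Fin 59) (y : Fin 8 → E3) => F m y) j x ≠ 0 := by
    intro x hx j hj
    have hj' : ∀ i < 59, i ≠ (j : ℕ) → 0 < F i x := by
      intro i hi hne
      exact hj ⟨i, hi⟩ (fun h => hne (by rw [← h]))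
    show F (j : ℕ) x ≠ 0
    by_cases hl : (j : ℕ) ∈ lk
    · have hcases : (j : ℕ) = 0 ∨ (j : ℕ) = 5 ∨ (j : ℕ) = 9 ∨ (j : ℕ) = 12 ∨ (j : ℕ) = 14 ∨
          (j : ℕ) = 34 ∨ (j : ℕ) = 37 ∨ (j : ℕ) = 44 ∨ (j : ℕ) = 47 ∨ (j : ℕ) = 49 ∨
          (j : ℕ) = 56 ∨ (j : ℕ) = 58 := by
        simpa [lk] using hl
      rcases hcases with h | h | h | h | h | h | h | h | h | h | h | h
      · exact hWLR x hx _ (Or.inl h) hj'
      · exact hWLR x hx _ (Or.inr (Or.inl h)) hj'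
      · exact hWLR x hx _ (Or.inr (Or.inr (Or.inl h))) hj'
      · exact hWLR x hx _ (Or.inr (Or.inr (Or.inr h))) hj'
      · rw [h] at hj' ⊢
        exact hWLX x hx hj'
      · exact hWLF x hx _ (Or.inl h) hj'
      · exact hWLS x hx _ (Or.inr (Or.inr (Or.inr h))) hj'
      · exact hWLF x hx _ (Or.inr (Or.inl h)) hj'
      · exact hWLF x hx _ (Or.inr (Or.inr h)) hj'
      · exact hWLS x hx _ (Or.inr (Or.inr (Or.inl h))) hj'
      · exact hWLS x hx _ (Or.inr (Or.inl h)) hj'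
      · exact hWLS x hx _ (Or.inl h) hj'
    · exact hWLN x j j.2 hl hj'
  rw [X_eq] at hcX ⊢
  exact hABS 59 (fun (m : Fin 59) (y : Fin 8 → E3) => F m y) Om
    (fun i x k => hAFF.2 i i.2 x k) (fun i => hAFF.1 i) hOPN hGEN hwall c hc hcX

lemma vv_xx (v : Fin 8 → E3) : vv (xx v) = v := by
  funext k
  fin_cases k <;> simp [vv, xx]

lemma cont_xx : Continuous xx := by
  refine continuous_pi fun k => ?_
  fin_cases k
  · show Continuous fun v : Fin 8 → E3 => v 0 - v 1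
    fun_prop
  · show Continuous fun v : Fin 8 → E3 => v 1
    fun_prop
  · show Continuous fun v : Fin 8 → E3 => v 2
    fun_prop
  · show Continuous fun v : Fin 8 → E3 => v 3
    fun_prop
  · show Continuous fun v : Fin 8 → E3 => v 4
    fun_prop
  · show Continuous fun v : Fin 8 → E3 => v 5
    fun_prop
  · show Continuous fun v : Fin 8 → E3 => v 6
    fun_prop
  · show Continuous fun v : Fin 8 → E3 => v 7 - v 6
    fun_prop

/-- the reach bounds on the closure of X -/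
lemma reach (hRCH : RchStmt) : ∀ x ∈ closure X,
    ‖x 5 - x 1‖ ≤ 2 + |‖x 2 - x 1‖ - 1| + |‖x 3 - x 2‖ - 1| + |‖x 4 - x 3‖ - 1| + |‖x 5 - x 4‖ - 1| ∧
    ‖x 6 - x 2‖ ≤ 2 + |‖x 3 - x 2‖ - 1| + |‖x 4 - x 3‖ - 1| + |‖x 5 - x 4‖ - 1| + |‖x 6 - x 5‖ - 1| := by
  intro x hx
  refine ⟨?_, ?_⟩
  · exact le_on_closure (f := fun x : Fin 8 → E3 => ‖x 5 - x 1‖)
      (g := fun x : Fin 8 → E3 => 2 + |‖x 2 - x 1‖ - 1| + |‖x 3 - x 2‖ - 1| + |‖x 4 - x 3‖ - 1| +
        |‖x 5 - x 4‖ - 1|) (fun y hy => (hRCH y hy).1)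
      (Continuous.continuousOn (by fun_prop)) (Continuous.continuousOn (by fun_prop)) hx
  · exact le_on_closure (f := fun x : Fin 8 → E3 => ‖x 6 - x 2‖)
      (g := fun x : Fin 8 → E3 => 2 + |‖x 3 - x 2‖ - 1| + |‖x 4 - x 3‖ - 1| + |‖x 5 - x 4‖ - 1| +
        |‖x 6 - x 5‖ - 1|) (fun y hy => (hRCH y hy).2)
      (Continuous.continuousOn (by fun_prop)) (Continuous.continuousOn (by fun_prop)) hx

lemma conf_Om (hRCH : RchStmt) (G G' : ℝ) (hG : 3 < G) (hG' : 3 < G') (v : Fin 8 → E3)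
    (hv : v ∈ Conf (n := 7) ![G, 1, 1, 1, 1, 1, G']) (hX : xx v ∈ closure X) : xx v ∈ Om := by
  obtain ⟨hlen, hsim⟩ := hv
  have l0 : dist (v 0) (v 1) = G := hlen 0
  have l1 : dist (v 1) (v 2) = 1 := hlen 1
  have l2 : dist (v 2) (v 3) = 1 := hlen 2
  have l3 : dist (v 3) (v 4) = 1 := hlen 3
  have l4 : dist (v 4) (v 5) = 1 := hlen 4
  have l5 : dist (v 5) (v 6) = 1 := hlen 5
  have l6 : dist (v 6) (v 7) = G' := hlen 6
  have x0 : xx v 0 = v 0 - v 1 := rfl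
  have x1 : xx v 1 = v 1 := rfl
  have x2 : xx v 2 = v 2 := rfl
  have x3 : xx v 3 = v 3 := rfl
  have x4 : xx v 4 = v 4 := rfl
  have x5 : xx v 5 = v 5 := rfl
  have x6 : xx v 6 = v 6 := rfl
  have x7 : xx v 7 = v 7 - v 6 := rfl
  have n0 : ‖xx v 0‖ = G := by rw [x0, ← dist_eq_norm]; exact l0
  have n7 : ‖xx v 7‖ = G' := by rw [x7, ← dist_eq_norm, dist_comm]; exact l6
  have m1 : ‖v 2 - v 1‖ = 1 := by rw [← dist_eq_norm, dist_comm]; exact l1
  have m2 : ‖v 3 - v 2‖ = 1 := by rw [← dist_eq_norm, dist_comm]; exact l2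
  have m3 : ‖v 4 - v 3‖ = 1 := by rw [← dist_eq_norm, dist_comm]; exact l3
  have m4 : ‖v 5 - v 4‖ = 1 := by rw [← dist_eq_norm, dist_comm]; exact l4
  have m5 : ‖v 6 - v 5‖ = 1 := by rw [← dist_eq_norm, dist_comm]; exact l5
  obtain ⟨r1, r2⟩ := reach hRCH _ hX
  rw [x1, x2, x3, x4, x5] at r1
  rw [x2, x3, x4, x5, x6] at r2
  rw [m1, m2, m3, m4] at r1
  rw [m2, m3, m4, m5] at r2
  norm_num at r1 r2
  have t12 : ‖v 3 - v 1‖ ≤ 2 := by
    have : v 3 - v 1 = (v 3 - v 2) + (v 2 - v 1) := by abel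
    rw [this]
    exact (norm_add_le _ _).trans (by rw [m2, m1]; norm_num)
  have t13 : ‖v 4 - v 1‖ ≤ 3 := by
    have : v 4 - v 1 = (v 4 - v 3) + (v 3 - v 1) := by abel
    rw [this]
    exact (norm_add_le _ _).trans (by rw [m3]; linarith)
  have t15 : ‖v 6 - v 1‖ ≤ 3 := by
    have : v 6 - v 1 = (v 6 - v 5) + (v 5 - v 1) := by abel
    rw [this]
    exact (norm_add_le _ _).trans (by rw [m5]; linarith)
  have s4 : ‖v 4 - v 6‖ ≤ 2 := by
    have : v 4 - v 6 = -(v 6 - v 5) + -(v 5 - v 4) := by abel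
    rw [this]
    exact (norm_add_le _ _).trans (by rw [norm_neg, norm_neg, m5, m4]; norm_num)
  have s3 : ‖v 3 - v 6‖ ≤ 3 := by
    have : v 3 - v 6 = -(v 4 - v 3) + (v 4 - v 6) := by abel
    rw [this]
    exact (norm_add_le _ _).trans (by rw [norm_neg, m3]; linarith)
  have s2 : ‖v 2 - v 6‖ ≤ 2 := by rw [norm_sub_rev]; exact r2
  have s1 : ‖v 1 - v 6‖ ≤ 3 := by rw [norm_sub_rev]; exact t15
  have s5 : ‖v 5 - v 6‖ = 1 := by rw [norm_sub_rev]; exact m5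
  refine ⟨?_, ?_, ?_⟩
  · intro i j hij
    rw [vv_xx]
    have hlt : i < j := by
      rw [Fin.lt_def]; omega
    have h := hsim i j hlt
    rw [if_neg (by omega)] at h
    exact Set.disjoint_iff_inter_eq_empty.2 h
  · intro j h2 h6
    rw [n0, x1]
    have : j = 2 ∨ j = 3 ∨ j = 4 ∨ j = 5 ∨ j = 6 := by
      revert h2 h6; revert j; decide
    rcases this with rfl | rfl | rfl | rfl | rfl
    · rw [x2, m1]; linarith
    · rw [x3]; linarith
    · rw [x4]; linarith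
    · rw [x5]; linarith
    · rw [x6]; linarith
  · intro j h1 h5
    rw [n7, x6]
    have : j = 1 ∨ j = 2 ∨ j = 3 ∨ j = 4 ∨ j = 5 := by
      revert h1 h5; revert j; decide
    rcases this with rfl | rfl | rfl | rfl | rfl
    · rw [x1]; linarith
    · rw [x2]; linarith
    · rw [x3]; linarith
    · rw [x4]; linarith
    · rw [x5, s5]; linarith

end Pool.Agent.LKT.H79
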