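import Pool.Agent.LKT.Stmts
import Pool.Agent.Helper60_LKT.WLN

/-!
# Squad LKT, row FIN: the final theorem from the rows
-/

set_option autoImplicit false

open Topology

namespace Pool.Agent.LKT.H79

open Pool.Agent.LCK Pool.Agent.LKT

/-- membership in the configuration space -/
lemma mem_conf (hSMP : SmpStmt) (G G' : ℝ) (x : Fin 8 → E3)
    (hD : ∀ i < 59, F i x ≠ 0)
    (h0 : ‖x 0‖ = G) (h7 : ‖x 7‖ = G') (m1 : ‖x 2 - x 1‖ = 1) (m2 : ‖x 3 - x 2‖ = 1)
    (m3 : ‖x 4 - x 3‖ = 1) (m4 : ‖x 5 - x 4‖ = 1) (m5 : ‖x 6 - x 5‖ = 1) :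
    vv x ∈ Conf (n := 7) ![G, 1, 1, 1, 1, 1, G'] := by
  constructor
  · intro k
    fin_cases k
    · show dist (x 1 + x 0) (x 1) = G
      rw [dist_eq_norm, add_sub_cancel_left]; exact h0
    · show dist (x 1) (x 2) = 1
      rw [dist_comm, dist_eq_norm]; exact m1
    · show dist (x 2) (x 3) = 1
      rw [dist_comm, dist_eq_norm]; exact m2
    · show dist (x 3) (x 4) = 1
      rw [dist_comm, dist_eq_norm]; exact m3
    · show dist (x 4) (x 5) = 1
      rw [dist_comm, dist_eq_norm]; exact m4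
    · show dist (x 5) (x 6) = 1
      rw [dist_comm, dist_eq_norm]; exact m5
    · show dist (x 6) (x 6 + x 7) = G'
      rw [dist_comm, dist_eq_norm, add_sub_cancel_left]; exact h7
  · have k0 : D x 0 1 2 3 ≠ 0 := fun h => hD 0 (by norm_num) (by rw [H60.F0, h, neg_zero])
    have k5 : D x 0 1 3 4 ≠ 0 := fun h => hD 5 (by norm_num) (by rw [H60.F5, h, neg_zero])
    have k9 : D x 0 1 4 5 ≠ 0 := fun h => hD 9 (by norm_num) (by rw [H60.F9, h, neg_zero])
    have k12 : D x 0 1 5 6 ≠ 0 := fun h => hD 12 (by norm_num) (by rw [H60.F12, h, neg_zero])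
    have k14 : D x 0 1 6 7 ≠ 0 := fun h => hD 14 (by norm_num) (by rw [H60.F14, h, neg_zero])
    have k30 : D x 1 2 3 4 ≠ 0 := fun h => hD 30 (by norm_num) (by rw [H60.F30, h])
    have k34 : D x 1 2 4 5 ≠ 0 := fun h => hD 34 (by norm_num) (by rw [H60.F34, h, neg_zero])
    have k35 : D x 1 2 5 6 ≠ 0 := fun h => hD 35 (by norm_num) (by rw [H60.F35, h])
    have k37 : D x 1 2 6 7 ≠ 0 := fun h => hD 37 (by norm_num) (by rw [H60.F37, h, neg_zero])
    have k44 : D x 2 3 4 5 ≠ 0 := fun h => hD 44 (by norm_num) (by rw [H60.F44, h, neg_zero])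
    have k47 : D x 2 3 5 6 ≠ 0 := fun h => hD 47 (by norm_num) (by rw [H60.F47, h, neg_zero])
    have k49 : D x 2 3 6 7 ≠ 0 := fun h => hD 49 (by norm_num) (by rw [H60.F49, h, neg_zero])
    have k54 : D x 3 4 5 6 ≠ 0 := fun h => hD 54 (by norm_num) (by rw [H60.F54, h])
    have k56 : D x 3 4 6 7 ≠ 0 := fun h => hD 56 (by norm_num) (by rw [H60.F56, h, neg_zero])
    have k58 : D x 4 5 6 7 ≠ 0 := fun h => hD 58 (by norm_num) (by rw [H60.F58, h, neg_zero])
    refine hSMP x ?_ ?_
    · rintro ⟨a, ha⟩ ⟨b, hb⟩ ⟨c, hc⟩ ⟨d, hd⟩ hab hcd hbc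
      replace hab : b = a + 1 := hab
      replace hcd : d = c + 1 := hcd
      replace hbc : b < c := hbc
      subst hab hcd
      have ha4 : a ≤ 4 := by omega
      have hc6 : c ≤ 6 := by omega
      interval_cases a <;> interval_cases c
      · exact k0
      · exact k5
      · exact k9
      · exact k12
      · exact k14
      · exact k30
      · exact k34
      · exact k35
      · exact k37
      · exact k44
      · exact k47
      · exact k49
      · exact k54
      · exact k56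
      · exact k58
    · rintro ⟨a, ha⟩ ⟨b, hb⟩ ⟨c, hc⟩ ⟨d, hd⟩ hab hbc hcd
      replace hab : b = a + 1 := hab
      replace hbc : c = b + 1 := hbc
      replace hcd : d = c + 1 := hcd
      subst hab hbc hcd
      have ha5 : a = 0 ∨ a = 1 ∨ a = 2 ∨ a = 3 ∨ a = 4 := by omega
      rcases ha5 with rfl | rfl | rfl | rfl | rfl
      · exact k0
      · exact k30
      · exact k44
      · exact k54
      · exact k58

end Pool.Agent.LKT.H79
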