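import Pool.Agent.LKT.Stmts
import Pool.Agent.Helper79_LKT.FA
import Pool.Agent.Helper79_LKT.FB

/-!
# Squad LKT, row FIN: the final theorem from the rows
-/

set_option autoImplicit false

open Topology

namespace Pool.Agent.LKT.H79

open Pool.Agent.LCK Pool.Agent.LKT

lemma xx_vv (y : Fin 8 → E3) : xx (vv y) = y := by
  funext k
  fin_cases k
  · show (y 1 + y 0) - y 1 = y 0
    abel
  · rfl
  · rfl
  · rfl
  · rfl
  · rfl
  · rfl
  · show (y 6 + y 7) - y 6 = y 7
    abel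

lemma open_X (hAFF : AffStmt) : IsOpen X := by
  have : X = ⋂ i : Fin 59, {x : Fin 8 → E3 | 0 < F i x} := by
    ext y
    rw [Set.mem_iInter]
    constructor
    · intro h i
      exact h i i.2
    · intro h i hi
      exact h ⟨i, hi⟩
  rw [this]
  exact isOpen_iInter_of_finite fun i => isOpen_lt continuous_const (hAFF.1 i)

lemma F_mir (m : E3 ≃ₗᵢ[ℝ] E3)
    (hm : ∀ (x : Fin 8 → E3) (a b c d : Fin 8), D (fun k => m (x k)) a b c d = - D x a b c d)
    (x : Fin 8 → E3) (i : ℕ) : F i (fun k => m (x k)) = - F i x := by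
  unfold F
  rw [hm, mul_neg]

lemma not_cl (hAFF : AffStmt) (y : Fin 8 → E3) (h : F 0 y < 0) : y ∉ closure X := by
  intro hcl
  have hc : IsClosed {y : Fin 8 → E3 | 0 ≤ F 0 y} := isClosed_le continuous_const (hAFF.1 0)
  have hs : X ⊆ {y : Fin 8 → E3 | 0 ≤ F 0 y} := by
    intro z hz
    have h1 : 0 < F 0 z := hz 0 (by norm_num)
    exact h1.le
  have h1 : 0 ≤ F 0 y := closure_minimal hs hc hcl
  exact absurd h (not_lt.2 h1)

theorem fin (hAFF : AffStmt) (hWLN : WlnStmt) (hWLF : WlfStmt) (hWLR : WlrStmt) (hWLS : WlsStmt)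
    (hWLX : WlxStmt) (hOPN : OpnStmt) (hABS : AbsStmt) (hGEN : GenStmt) (hRCH : RchStmt)
    (hSMP : SmpStmt) (hEXM : ExmStmt) (hMIR : MirStmt) : FinStmt := by
  intro G G' hG hG' hpre
  have hloc := loc hAFF hWLN hWLF hWLR hWLS hWLX hOPN hABS hGEN
  obtain ⟨x, hxX, h0, h7, m1, m2, m3, m4, m5⟩ := hEXM G G' (by linarith) (by linarith)
  obtain ⟨m, hm⟩ := hMIR
  have hXo : IsOpen X := open_X hAFF
  have hU : IsOpen (xx ⁻¹' interior (closure X)) := isOpen_interior.preimage cont_xx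
  have hV : IsOpen (xx ⁻¹' (closure X)ᶜ) := isClosed_closure.isOpen_compl.preimage cont_xx
  have hcov : Conf (n := 7) ![G, 1, 1, 1, 1, 1, G'] ⊆
      (xx ⁻¹' interior (closure X)) ∪ (xx ⁻¹' (closure X)ᶜ) := by
    intro v hv
    by_cases h : xx v ∈ closure X
    · left
      exact mem_interior_iff_mem_nhds.2 (hloc _ (conf_Om hRCH G G' hG hG' v hv h) h)
    · right
      exact h
  have hpos : ∀ i < 59, F i x ≠ 0 := by
    intro i hi
    have h1 : 0 < F i x := hxX i hi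
    exact ne_of_gt h1
  have hneU : (Conf (n := 7) ![G, 1, 1, 1, 1, 1, G'] ∩ (xx ⁻¹' interior (closure X))).Nonempty := by
    refine ⟨vv x, mem_conf hSMP G G' x hpos h0 h7 m1 m2 m3 m4 m5, ?_⟩
    rw [Set.mem_preimage, xx_vv]
    exact interior_mono subset_closure (by rw [hXo.interior_eq]; exact hxX)
  have hneV : (Conf (n := 7) ![G, 1, 1, 1, 1, 1, G'] ∩ (xx ⁻¹' (closure X)ᶜ)).Nonempty := by
    obtain ⟨y, hy⟩ : ∃ y : Fin 8 → E3, ∀ k, y k = m (x k) := ⟨fun k => m (x k), fun k => rfl⟩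
    have hy' : y = fun k => m (x k) := funext hy
    have hF : ∀ i, F i y = - F i x := by
      intro i
      rw [hy']
      exact F_mir m hm x i
    refine ⟨vv y, mem_conf hSMP G G' y ?_ ?_ ?_ ?_ ?_ ?_ ?_ ?_, ?_⟩
    · intro i hi
      rw [hF]
      exact neg_ne_zero.2 (hpos i hi)
    · rw [hy, m.norm_map]; exact h0
    · rw [hy, m.norm_map]; exact h7
    · rw [hy, hy, ← map_sub, m.norm_map]; exact m1
    · rw [hy, hy, ← map_sub, m.norm_map]; exact m2
    · rw [hy, hy, ← map_sub, m.norm_map]; exact m3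
    · rw [hy, hy, ← map_sub, m.norm_map]; exact m4
    · rw [hy, hy, ← map_sub, m.norm_map]; exact m5
    · rw [Set.mem_preimage, xx_vv]
      refine not_cl hAFF y ?_
      have h1 : 0 < F 0 x := hxX 0 (by norm_num)
      rw [hF]
      exact neg_lt_zero.2 h1
  obtain ⟨v, -, hv1, hv2⟩ := hpre _ _ hU hV hcov hneU hneV
  exact hv2 (interior_subset hv1)

end Pool.Agent.LKT.H79
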