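import Pool.Agent.Helper42_LKT.GPI
import Pool.Agent.Helper27_LKT.CRM
import Pool.Agent.Helper72_LKT.AFF
import Pool.Agent.Helper60_LKT.WLN
import Pool.Agent.Helper47_LKT.WLF
import Pool.Agent.Helper43_LKT.WLR
import Pool.Agent.Helper12_LKT.WLS
import Pool.Agent.Helper3_LKT.WLX
import Pool.Agent.Helper10_LKT.OPN
import Pool.Agent.Helper75_LKT.ONE
import Pool.Agent.Helper36_LKT.ABS
import Pool.Agent.Helper35_LKT.NVD
import Pool.Agent.Helper51_LKT.GNP
import Pool.Agent.Helper16_LKT.GEX
import Pool.Agent.Helper81_LKT.GEN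
import Pool.Agent.Helper67_LKT.QUA
import Pool.Agent.Helper44_LKT.RCH
import Pool.Agent.Helper88_LKT.SMP
import Pool.Agent.Helper59_LKT.EXM
import Pool.Agent.Helper70_LKT.MIR
import Pool.Agent.Helper46_LKT.EXT
import Pool.Agent.Helper79_LKT.FIN

/-!
# Squad LKT: assembly
-/

set_option autoImplicit false

namespace Pool.Agent.LKT.H79

open Pool.Agent.LCK Pool.Agent.LKT

theorem fin_all : FinStmt :=
  fin H72.aff (H60.wln H42.gpi H27.crm) (H47.wlf H27.crm) (H43.wlr H27.crm) (H12.wls H27.crm)
    (H3.wlx H27.crm) H10.opn (H36.abs H75.one) (H81.gen H35.nvd (H51.gnp H27.crm) H16.gex)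
    (H44.rch H27.crm H67.qua) (H88.smp H27.crm) H59.exm H70.mir

theorem ext_all : ExtStmt := H46.ext fin_all

/-- scaling: a chain is locked if a scaled copy is -/
theorem locked_of_scaled {n : ℕ} (l : Fin n → ℝ) (c : ℝ) (hc : 0 < c)
    (h : Locked (fun k => c * l k)) : Locked l := by
  intro hp
  refine h ?_
  have him : Conf (fun k => c * l k) = (fun v : Fin (n + 1) → E3 => c • v) '' Conf l := by
    have key : ∀ (a : ℝ), 0 < a → ∀ (l' : Fin n → ℝ) (v : Fin (n + 1) → E3), v ∈ Conf l' →
        a • v ∈ Conf (fun k => a * l' k) := by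
      intro a ha l' v hv
      refine ⟨fun k => ?_, fun i j hij => ?_⟩
      · rw [Pi.smul_apply, Pi.smul_apply, dist_smul₀, Real.norm_of_nonneg ha.le, hv.1 k]
      · have himg : ∀ p q : E3, segment ℝ (a • p) (a • q) = (fun y : E3 => a • y) '' segment ℝ p q := by
          intro p q
          have := image_segment ℝ (LinearMap.lsmul ℝ E3 a).toAffineMap p q
          simpa using this.symm
        have hinj : Function.Injective (fun y : E3 => a • y) := smul_right_injective _ ha.ne'
        rw [Pi.smul_apply, Pi.smul_apply, Pi.smul_apply, Pi.smul_apply, himg, himg,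
          ← Set.image_inter hinj, hv.2 i j hij]
        split_ifs
        · rw [Set.image_singleton]
        · rw [Set.image_empty]
    ext v
    constructor
    · intro hv
      refine ⟨c⁻¹ • v, ?_, ?_⟩
      · have := key c⁻¹ (inv_pos.2 hc) _ v hv
        have e : (fun k => c⁻¹ * (c * l k)) = l := by
          funext k
          rw [inv_mul_cancel_left₀ hc.ne']
        rwa [e] at this
      · show c • (c⁻¹ • v) = v
        rw [smul_inv_smul₀ hc.ne']
    · rintro ⟨w, hw, rfl⟩
      exact key c hc l w hw
  rw [him]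
  exact hp.image _ (continuous_const_smul c).continuousOn

end Pool.Agent.LKT.H79
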